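import Pool.Agent.Lib.MP_119ee3_al.MainAll

set_option autoImplicit false

/-!
# MP_119ee3_al, Q1: every self-dual `G(r,p,q,n)` with `gcd(p,n) ≤ 2` has a generalized
involution model with respect to the inverse transpose.
-/

namespace Pool.Agent.Results.MP_119ee3_al.SelfDualGIM

/-- Let `p ∣ r`, `q ∣ r`, `p q ∣ r n`, `r, n > 0`. If `G(r,p,q,n)` is self-dual, that is isomorphic
as an abstract group to `G(r,q,p,n)`, and `gcd(p,n) ≤ 2`, then `G(r,p,q,n)` has a generalized
involution model with respect to the inverse transpose automorphism `τ`. -/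
theorem result (r p q n : ℕ) [NeZero r] [NeZero n] (hp : p ∣ r) (hq : q ∣ r)
    (hpq : p * q ∣ r * n) (hdual : Nonempty (GIM119.PRG r p q n ≃* GIM119.PRG r q p n))
    (hgcd : Nat.gcd p n ≤ 2) : GIM119.HasGIM (GIM119.tauQ r p q n) :=
  GIM119.main_all hp hq hpq hgcd hdual.some

end Pool.Agent.Results.MP_119ee3_al.SelfDualGIM
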